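import Mathlib

/-! # MP_93a94a: no nonconstant periodic coefficient sequence gives convergence to
`(k + 2)`-periodic solutions -/

namespace Pool.Agent.Results.MP_93a94a_an.NoSuchCoefficients

open Filter Topology Finset

/-- `x` (indexed from `0`: `x j` is `x_{j - (2 k + 2)}`) is a positive solution of (E): the
initial values `x 0, ..., x (2 k + 2)` are positive and
`x_{n+1} = α_n / (x_n ⋯ x_{n-k}) + 1 / (x_{n-k-2} ⋯ x_{n-2k-2})`. -/
def IsPositiveSolution (k : ℕ) (α : ℕ → ℝ) (x : ℕ → ℝ) : Prop :=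
  (∀ j, j ≤ 2 * k + 2 → 0 < x j) ∧
    ∀ n, x (n + 2 * k + 3) = α n / (∏ i ∈ range (k + 1), x (n + k + 2 + i)) +
      1 / ∏ i ∈ range (k + 1), x (n + i)

/-- `p` is the least positive period of `α`. -/
def IsLeastPeriod (α : ℕ → ℝ) (p : ℕ) : Prop :=
  0 < p ∧ (∀ n, α (n + p) = α n) ∧ ∀ q, 0 < q → (∀ n, α (n + q) = α n) → p ≤ q

/-- `x` tends to a `(k + 2)`-periodic solution of (E). -/
def TendsToPeriodic (k : ℕ) (α : ℕ → ℝ) (x : ℕ → ℝ) : Prop :=
  ∃ y : ℕ → ℝ, IsPositiveSolution k α y ∧ (∀ n, y (n + (k + 2)) = y n) ∧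
    Tendsto (fun n => x n - y n) atTop (𝓝 0)

lemma sol_pos {k : ℕ} {α x : ℕ → ℝ} (hα : ∀ n, 0 ≤ α n) (hx : IsPositiveSolution k α x) :
    ∀ n, 0 < x n := by
  intro n
  induction n using Nat.strong_induction_on with
  | _ n ih =>
    rcases le_or_gt n (2 * k + 2) with h | h
    · exact hx.1 n h
    · obtain ⟨m, rfl⟩ : ∃ m, n = m + 2 * k + 3 := ⟨n - (2 * k + 3), by omega⟩
      rw [hx.2 m]
      have h1 : 0 < ∏ i ∈ range (k + 1), x (m + k + 2 + i) :=
        prod_pos fun i hi => ih _ (by have := mem_range.1 hi; omega)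
      have h2 : 0 < ∏ i ∈ range (k + 1), x (m + i) :=
        prod_pos fun i hi => ih _ (by have := mem_range.1 hi; omega)
      have h3 := hα m
      positivity

/-- A `(k + 2)`-periodic positive solution exists only for constant coefficients. -/
lemma const_of_periodic {k : ℕ} {α y : ℕ → ℝ} (hα : ∀ n, 0 ≤ α n)
    (hy : IsPositiveSolution k α y) (hp : ∀ n, y (n + (k + 2)) = y n) : ∀ n, α (n + 1) = α n := by
  have hpos := sol_pos hα hy
  -- `Q n`: the product of `k + 2` consecutive terms
  have hQ : ∀ n, ∏ i ∈ range (k + 2), y (n + 1 + i) = ∏ i ∈ range (k + 2), y (n + i) := by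
    intro n
    rw [prod_range_succ, prod_range_succ' (fun i => y (n + i)), add_zero]
    rw [show n + 1 + (k + 1) = n + (k + 2) by ring, hp n]
    congr 1
    exact prod_congr rfl fun i _ => by rw [show n + 1 + i = n + (i + 1) by ring]
  have key : ∀ n, α n + 1 = ∏ i ∈ range (k + 2), y (n + i) := by
    intro n
    have h1 := hy.2 n
    have hP : 0 < ∏ i ∈ range (k + 1), y (n + i) := prod_pos fun i _ => hpos _
    have h2 : ∏ i ∈ range (k + 1), y (n + k + 2 + i) = ∏ i ∈ range (k + 1), y (n + i) :=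
      prod_congr rfl fun i _ => by rw [← hp (n + i)]; congr 1; ring
    have h3 : y (n + 2 * k + 3) = y (n + (k + 1)) := by
      rw [← hp (n + (k + 1))]; congr 1; ring
    rw [h2, h3] at h1
    rw [prod_range_succ, h1]
    field_simp
  intro n
  have h1 := key n
  have h2 := key (n + 1)
  rw [hQ n] at h2
  linarith

/-- The answer to Q1: there are none. For every `k`, every `p ≥ 2` and every nonnegative sequence
`α` of least period `p`, no positive solution of (E) tends to a `(k + 2)`-periodic solution of (E)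
(and positive solutions exist), so the set of the pairs `(p, α)` for which each positive solution
tends to a `(k + 2)`-periodic solution is empty. -/
theorem result (k : ℕ) :
    (∀ p : ℕ, 2 ≤ p → ∀ α : ℕ → ℝ, (∀ n, 0 ≤ α n) → IsLeastPeriod α p →
      (∃ x, IsPositiveSolution k α x) ∧
        ∀ x, IsPositiveSolution k α x → ¬ TendsToPeriodic k α x) ∧
    {pα : ℕ × (ℕ → ℝ) | 2 ≤ pα.1 ∧ (∀ n, 0 ≤ pα.2 n) ∧ IsLeastPeriod pα.2 pα.1 ∧
      ∀ x, IsPositiveSolution k pα.2 x → TendsToPeriodic k pα.2 x} = ∅ := by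
  have hex : ∀ α : ℕ → ℝ, ∃ x, IsPositiveSolution k α x := by
    intro α
    -- the solution with initial values one, as a sequence of windows
    let step : ℕ → (ℕ → ℝ) → (ℕ → ℝ) := fun n w j =>
      if j ≤ 2 * k + 1 then w (j + 1)
      else α n / (∏ i ∈ range (k + 1), w (k + 2 + i)) + 1 / ∏ i ∈ range (k + 1), w i
    let S : ℕ → (ℕ → ℝ) := fun n => Nat.rec (fun _ => 1) (fun n w => step n w) n
    have hS : ∀ n, S (n + 1) = step n (S n) := fun n => rfl
    have hshift : ∀ j, j ≤ 2 * k + 2 → ∀ n, S n j = S (n + j) 0 := by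
      intro j
      induction j with
      | zero => intro _ n; rfl
      | succ j ih =>
        intro hj n
        have h1 := ih (by omega) (n + 1)
        rw [hS n] at h1
        simp only [step, if_pos (show j ≤ 2 * k + 1 by omega)] at h1
        rw [h1, show n + 1 + j = n + (j + 1) by ring]
    refine ⟨fun n => S n 0, fun j hj => ?_, fun n => ?_⟩
    · have h := hshift j hj 0
      rw [zero_add] at h
      show 0 < S j 0
      rw [← h]
      exact one_pos
    · show S (n + 2 * k + 3) 0 = _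
      have h1 := hshift (2 * k + 2) le_rfl (n + 1)
      rw [show n + 1 + (2 * k + 2) = n + 2 * k + 3 by ring] at h1
      rw [← h1, hS n]
      simp only [step, if_neg (show ¬ 2 * k + 2 ≤ 2 * k + 1 by omega)]
      have h2 : ∏ i ∈ range (k + 1), S n (k + 2 + i) =
          ∏ i ∈ range (k + 1), S (n + k + 2 + i) 0 := by
        refine prod_congr rfl fun i hi => ?_
        have := mem_range.1 hi
        rw [hshift (k + 2 + i) (by omega) n]
        congr 1
        ring_nf
      have h3 : ∏ i ∈ range (k + 1), S n i = ∏ i ∈ range (k + 1), S (n + i) 0 := by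
        refine prod_congr rfl fun i hi => ?_
        have := mem_range.1 hi
        exact hshift i (by omega) n
      rw [h2, h3]
  have hno : ∀ p : ℕ, 2 ≤ p → ∀ α : ℕ → ℝ, (∀ n, 0 ≤ α n) → IsLeastPeriod α p →
      ∀ x, IsPositiveSolution k α x → ¬ TendsToPeriodic k α x := by
    rintro p hp α hα ⟨-, -, hleast⟩ x - ⟨y, hy, hper, -⟩
    have := hleast 1 one_pos (const_of_periodic hα hy hper)
    omega
  refine ⟨fun p hp α hα hper => ⟨hex α, hno p hp α hα hper⟩, ?_⟩
  rw [Set.eq_empty_iff_forall_notMem]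
  rintro ⟨p, α⟩ ⟨hp, hα, hper, hall⟩
  obtain ⟨x, hx⟩ := hex α
  exact hno p hp α hα hper x hx (hall x hx)

end Pool.Agent.Results.MP_93a94a_an.NoSuchCoefficients
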